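import Pool.Agent.H828.GoG.Main

set_option autoImplicit false

/-!
Stability passes to the fundamental groups of finite graphs of groups with finite edge groups
that are almost normal in the vertex groups, for both classes: symmetric groups with the
normalised Hamming distance, and unitary groups with the normalised Hilbert-Schmidt distance.
This contains the case of one amalgamated free product asked for in the problem, amalgams of
several groups, and HNN extensions. The general case does not follow from the case of one
amalgam or one HNN extension by iteration: the edge groups are almost normal in the vertex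
groups, but in general not in the intermediate amalgams.
-/

namespace Pool.Agent.Results.MP_098da0_al.FiniteGraphsOfGroups

open Pool.Agent.H698R3.Amalg Pool.Agent.H828.GoG

/-- The property `P` of groups passes from the vertex groups, if these are countable, to the
universal group and to the fundamental groups of every finite graph of groups with finite edge
groups whose images in the vertex groups are almost normal. -/
def GraphClosed (P : ∀ (G : Type) [Group G], Prop) : Prop :=
  ∀ 𝒢 : GraphOfGroups, GoodEdges 𝒢 → (∀ v, Countable (𝒢.G v)) → (∀ v, P (𝒢.G v)) →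
    P (UGroup 𝒢) ∧ ∀ v, P (pi1 𝒢 v)

/-- The property `P` passes from a countable group to its HNN extensions over finite almost
normal subgroups. -/
def HNNClosed (P : ∀ (G : Type) [Group G], Prop) : Prop :=
  ∀ (G : Type) [Group G] [Countable G] (A B : Subgroup G) [Finite A] (φ : A ≃* B),
    AlmostNormal A → AlmostNormal B → P G → P (HNNExtension G A B φ)

/-- The property `P` passes to the amalgam of a finite family of countable groups over a finite
group embedded as an almost normal subgroup of each. -/
def FamilyClosed (P : ∀ (G : Type) [Group G], Prop) : Prop :=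
  ∀ (I : Type) [Finite I] [Nonempty I] (G : I → Type) [∀ i, Group (G i)]
    [∀ i, Countable (G i)] (H : Type) [Group H] [Finite H] (φ : ∀ i, H →* G i),
    (∀ i, Function.Injective (φ i)) → (∀ i, AlmostNormal (φ i).range) →
    (∀ i, P (G i)) → P (Monoid.PushoutI φ)

/-- The property `P` passes to the amalgamated free product of two countable groups over a finite
group embedded as an almost normal subgroup of both. -/
def AmalgClosed (P : ∀ (G : Type) [Group G], Prop) : Prop :=
  ∀ (G₁ G₂ H : Type) [Group G₁] [Group G₂] [Group H] [Countable G₁] [Countable G₂]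
    [Finite H] (f₁ : H →* G₁) (f₂ : H →* G₂),
    Function.Injective f₁ → Function.Injective f₂ →
    AlmostNormal f₁.range → AlmostNormal f₂.range → P G₁ → P G₂ → P (AmalgProd f₁ f₂)

/-- Stability in permutations and Hilbert-Schmidt stability pass (1) from the vertex groups of a
finite graph of groups with finite almost normal edge groups to its universal group and its
fundamental groups, (2) to HNN extensions over finite almost normal subgroups, (3) to amalgams of
finitely many groups over a finite almost normal subgroup, (4) in particular to amalgamated free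
products of two groups, as asked. -/
theorem result :
    (GraphClosed PermutationStable ∧ HNNClosed PermutationStable ∧
      FamilyClosed PermutationStable ∧ AmalgClosed PermutationStable) ∧
    (GraphClosed HilbertSchmidtStable ∧ HNNClosed HilbertSchmidtStable ∧
      FamilyClosed HilbertSchmidtStable ∧ AmalgClosed HilbertSchmidtStable) := by
  refine ⟨⟨?_, ?_, ?_, ?_⟩, ⟨?_, ?_, ?_, ?_⟩⟩
  · intro 𝒢 hg hc hs
    refine ⟨perm_UGroup 𝒢 hg hc hs, fun v => ?_⟩
    obtain ⟨r, hr⟩ := exists_retraction v
    exact perm_retract _ r hr (perm_UGroup 𝒢 hg hc hs)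
  · intro G _ _ A B _ φ hA hB hs
    obtain ⟨i, r, hri⟩ := hnn_retract φ
    exact perm_retract i r hri
      (perm_UGroup (hnnGraph φ) (hnn_good φ hA hB) (fun _ => inferInstance) (fun _ => hs))
  · intro I _ hI G _ _ H _ _ φ _ hn hs
    obtain ⟨i0⟩ := hI
    have := Fintype.ofFinite I
    have : Nonempty I := ⟨i0⟩
    obtain ⟨i, r, hri⟩ := star_retract φ i0
    exact perm_retract i r hri
      (perm_UGroup (starGraph φ i0) (star_good φ hn i0) (fun _ => inferInstance) hs)
  · intro G₁ G₂ H _ _ _ _ _ _ f₁ f₂ _ _ hn₁ hn₂ h1 h2
    exact permStable_amalg f₁ f₂ hn₁ hn₂ h1 h2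
  · intro 𝒢 hg hc hs
    refine ⟨hs_UGroup 𝒢 hg hc hs, fun v => ?_⟩
    obtain ⟨r, hr⟩ := exists_retraction v
    exact hs_retract _ r hr (hs_UGroup 𝒢 hg hc hs)
  · intro G _ _ A B _ φ hA hB hs
    obtain ⟨i, r, hri⟩ := hnn_retract φ
    exact hs_retract i r hri
      (hs_UGroup (hnnGraph φ) (hnn_good φ hA hB) (fun _ => inferInstance) (fun _ => hs))
  · intro I _ hI G _ _ H _ _ φ _ hn hs
    obtain ⟨i0⟩ := hI
    have := Fintype.ofFinite I
    have : Nonempty I := ⟨i0⟩
    obtain ⟨i, r, hri⟩ := star_retract φ i0
    exact hs_retract i r hri
      (hs_UGroup (starGraph φ i0) (star_good φ hn i0) (fun _ => inferInstance) hs)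
  · intro G₁ G₂ H _ _ _ _ _ _ f₁ f₂ _ _ hn₁ hn₂ h1 h2
    exact hsStable_amalg f₁ f₂ hn₁ hn₂ h1 h2

end Pool.Agent.Results.MP_098da0_al.FiniteGraphsOfGroups
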